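import Pool.Agent.D0H61.RO.Stm
import Pool.Agent.D0H9.CC.Win

/-! `S_WIN4`: a set which is large up to `X` has a short window with many elements, without the loss of
a logarithm (the proof of `t_WIN` of helper9 with `δ' / log ^ C` instead of `1 / log ^ (C + 1)`). -/

set_option autoImplicit false

namespace Pool.Agent.D0H70.RO

open MeasureTheory Filter Topology Finset Pool.Agent.D0H61.CC Pool.Agent.D0H61.RO Pool.Agent.D0H9.CC

theorem t_WIN4 : S_WIN4 := by
  intro C A hA η hη hη1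
  obtain ⟨δ₁, hδ₁, hA⟩ := hA
  refine ⟨η * δ₁ / (16 * 2 ^ C), by positivity, ?_⟩
  set δ : ℝ := η * δ₁ / (16 * 2 ^ C) with hδ
  have hδ0 : 0 < δ := by positivity
  by_contra hcon
  rw [not_frequently] at hcon
  have hcon' : ∀ᶠ N : ℕ in atTop, (wn A η N : ℝ) * Real.log N ^ C < δ * N := by
    filter_upwards [hcon] with N hN
    unfold wn
    convert not_le.mp hN using 4
  obtain ⟨N₁, hN₁⟩ := eventually_atTop.mp hcon'
  have hs : Tendsto (fun X : ℕ => √(X : ℝ)) atTop atTop :=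
    Real.tendsto_sqrt_atTop.comp tendsto_natCast_atTop_atTop
  have e1 : ∀ᶠ X : ℕ in atTop, Real.log (√(X : ℝ)) ^ C ≤ δ₁ / (16 * 2 ^ C) * √(X : ℝ) := by
    have h1 := (Real.isLittleO_pow_log_id_atTop (n := C)).bound
      (show (0 : ℝ) < δ₁ / (16 * 2 ^ C) by positivity)
    filter_upwards [hs.eventually h1] with X hX
    simp only [id, Real.norm_eq_abs] at hX
    rw [abs_of_nonneg (Real.sqrt_nonneg _)] at hX
    exact (le_abs_self _).trans hX
  obtain ⟨X, hX, h1, h2, h3, h4⟩ := (hA.and_eventually (e1.and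
    ((hs.eventually (eventually_ge_atTop (2 / η))).and
    ((hs.eventually (eventually_ge_atTop (N₁ : ℝ))).and
    (hs.eventually (eventually_ge_atTop (Real.exp 1))))))).exists
  set Y : ℕ := ⌈√(X : ℝ)⌉₊ with hY
  have hYs : √(X : ℝ) ≤ Y := Nat.le_ceil _
  have hYs' : (Y : ℝ) < √(X : ℝ) + 1 := Nat.ceil_lt_add_one (Real.sqrt_nonneg _)
  have hs1 : 1 ≤ √(X : ℝ) := le_trans (by have := Real.add_one_le_exp (1 : ℝ); linarith) h4
  have hX0 : (0 : ℝ) ≤ X := Nat.cast_nonneg _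
  have hXX : √(X : ℝ) * √(X : ℝ) = X := Real.mul_self_sqrt hX0
  have hlY : 1 ≤ Real.log √(X : ℝ) := by
    rw [← Real.log_exp 1]
    exact Real.log_le_log (Real.exp_pos _) h4
  have hlX : Real.log X = 2 * Real.log √(X : ℝ) := by
    conv_lhs => rw [← hXX]
    rw [Real.log_mul (by positivity) (by positivity)]
    ring
  set l : ℝ := Real.log √(X : ℝ) with hl
  have hw : ∀ M : ℕ, Y ≤ M → (wn A η M : ℝ) ≤ δ / l ^ C * M := by
    intro M hM
    have hM' : √(X : ℝ) ≤ M := hYs.trans (by exact_mod_cast hM)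
    have hMN : N₁ ≤ M := by
      have : (N₁ : ℝ) ≤ M := h3.trans hM'
      exact_mod_cast this
    have h6 := hN₁ M hMN
    have h7 : l ≤ Real.log M := Real.log_le_log (by linarith) hM'
    have h8 : l ^ C ≤ Real.log M ^ C := pow_le_pow_left₀ (by linarith) h7 _
    rw [div_mul_eq_mul_div, le_div_iff₀ (by positivity)]
    have h9 : (wn A η M : ℝ) * l ^ C ≤ wn A η M * Real.log M ^ C :=
      mul_le_mul_of_nonneg_left h8 (Nat.cast_nonneg _)
    linarith
  have hb := upTo_bound A hη hη1 (by positivity) (h2.trans hYs) hw X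
  rw [hlX] at hX
  have hlp : 0 < (2 * l) ^ C := by positivity
  have h10 : ((upTo A X).card : ℝ) * (2 * l) ^ C ≤
      (2 * Y + 4 / η * (δ / l ^ C) * X) * (2 * l) ^ C :=
    mul_le_mul_of_nonneg_right hb hlp.le
  have h11 : 4 / η * (δ / l ^ C) * X * (2 * l) ^ C = δ₁ * X / 4 := by
    rw [mul_pow, hδ]
    have hl0 : l ^ C ≠ 0 := by positivity
    field_simp
    ring
  have h16 : 2 * (Y : ℝ) * (2 * l) ^ C ≤ δ₁ * X / 4 := by
    have h17 : 2 * (Y : ℝ) ≤ 4 * √(X : ℝ) := by linarith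
    have h18 : (2 * l) ^ C ≤ δ₁ / 16 * √(X : ℝ) := by
      rw [mul_pow]
      have := mul_le_mul_of_nonneg_left h1 (show (0 : ℝ) ≤ 2 ^ C by positivity)
      refine this.trans (le_of_eq ?_)
      field_simp
    calc 2 * (Y : ℝ) * (2 * l) ^ C ≤ (4 * √(X : ℝ)) * (δ₁ / 16 * √(X : ℝ)) := by gcongr
      _ = δ₁ * (√(X : ℝ) * √(X : ℝ)) / 4 := by ring
      _ = δ₁ * X / 4 := by rw [hXX]
  have hXp : (0 : ℝ) < X := by nlinarith
  have hpos : 0 < δ₁ * X := by positivity
  nlinarith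

end Pool.Agent.D0H70.RO
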